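import Mathlib.Data.ZMod.Basic
import Mathlib.Data.ZMod.Units
import Mathlib.GroupTheory.Perm.Basic
import Mathlib.Data.Nat.PrimeFin
import Mathlib.Tactic

/-! Every `N`-ary coset of the lifted dihedral group consists of affine permutations.

The subgroup of translations is the commutator subgroup of the lifted dihedral group `D`, so that
a permutation which normalises `D` normalises the group of translations. -/

namespace Pool.Agent.Results.MP_72c4d1_al.NaryCosetsAffine

open Equiv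

/-- the product of the distinct primes dividing `n` -/
def rad (n : ℕ) : ℕ := ∏ p ∈ n.primeFactors, p

/-- `σ` is an affine permutation `i ↦ a i + b` of `ℤ/n`, with a unit `a` -/
def IsAffine {n : ℕ} (σ : Perm (ZMod n)) : Prop :=
  ∃ (a : (ZMod n)ˣ) (b : ZMod n), ∀ i, σ i = a * i + b

/-- the lifted dihedral group: all `i ↦ u i + b` with a unit `u` of `ℤ/n` such that
`u² ≡ 1 (mod rad n)` -/
def liftedDihedral (n : ℕ) : Set (Perm (ZMod n)) :=
  {π | ∃ (u : (ZMod n)ˣ) (b : ZMod n),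
    ((u : ZMod n).val : ℤ) ^ 2 ≡ 1 [ZMOD (rad n : ℤ)] ∧ ∀ i, π i = u * i + b}

/-- the (left) coset `σ H` -/
def coset {n : ℕ} (σ : Perm (ZMod n)) (H : Set (Perm (ZMod n))) : Set (Perm (ZMod n)) :=
  {π | ∃ h ∈ H, π = σ * h}

/-- `C` is closed under products of `N` of its elements -/
def ClosedUnderProducts {n : ℕ} (N : ℕ) (C : Set (Perm (ZMod n))) : Prop :=
  ∀ l : List (Perm (ZMod n)), l.length = N → (∀ π ∈ l, π ∈ C) → l.prod ∈ C

theorem rad_dvd (n : ℕ) : rad n ∣ n := Nat.prod_primeFactors_dvd n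

/-- translation by `b` -/
def tr {n : ℕ} (b : ZMod n) : Perm (ZMod n) := Equiv.addRight b

theorem tr_mem {n : ℕ} (hn : 1 < n) (b : ZMod n) : tr b ∈ liftedDihedral n := by
  refine ⟨1, b, ?_, fun i => by simp [tr]⟩
  have : Fact (1 < n) := ⟨hn⟩
  rw [Units.val_one, ZMod.val_one]
  simp

theorem neg_mem {n : ℕ} (hn : 1 < n) : Equiv.neg (ZMod n) ∈ liftedDihedral n := by
  refine ⟨-1, 0, ?_, fun i => by simp⟩
  obtain ⟨m, rfl⟩ : ∃ m, n = m + 1 := ⟨n - 1, by omega⟩
  rw [Units.val_neg, Units.val_one, ZMod.val_neg_one]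
  have h1 : (rad (m + 1) : ℤ) ∣ ((m + 1 : ℕ) : ℤ) := by exact_mod_cast rad_dvd (m + 1)
  have h2 : ((m : ℤ)) ≡ -1 [ZMOD (rad (m + 1) : ℤ)] := by
    apply Int.ModEq.symm
    rw [Int.modEq_iff_dvd]
    push_cast at h1
    simpa using h1
  simpa using h2.pow 2

theorem IsAffine.mul_cancel {n : ℕ} {x y : Perm (ZMod n)} (hx : IsAffine x)
    (hyx : IsAffine (y * x)) : IsAffine y := by
  obtain ⟨a, b, h1⟩ := hx
  obtain ⟨c, d, h2⟩ := hyx
  refine ⟨c * a⁻¹, d - c * (↑a⁻¹ : ZMod n) * b, fun i => ?_⟩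
  have h3 : x (↑a⁻¹ * (i - b)) = i := by
    rw [h1, ← mul_assoc, Units.mul_inv, one_mul]
    ring
  have h4 := h2 (↑a⁻¹ * (i - b))
  rw [Perm.mul_apply, h3] at h4
  rw [h4]
  push_cast
  ring

theorem IsAffine.of_mem {n : ℕ} {π : Perm (ZMod n)} (h : π ∈ liftedDihedral n) : IsAffine π := by
  obtain ⟨u, b, -, h⟩ := h
  exact ⟨u, b, h⟩

theorem conj_affine {n : ℕ} {σ : Perm (ZMod n)} {H : Set (Perm (ZMod n))} {N : ℕ} (hN : 2 ≤ N)
    (h1 : 1 ∈ H) (haff : ∀ x ∈ H, IsAffine x)
    (h : ClosedUnderProducts N (coset σ H)) : ∀ g ∈ H, IsAffine (σ * g * σ⁻¹) := by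
  intro g hg
  obtain ⟨N, rfl⟩ : ∃ M, N = M + 2 := ⟨N - 2, by omega⟩
  have hσ : σ ∈ coset σ H := ⟨1, h1, by simp⟩
  have hσg : σ * g ∈ coset σ H := ⟨g, hg, rfl⟩
  obtain ⟨x, hx, hx'⟩ := h (List.replicate (N + 2) σ) (by simp) (by
    intro π hπ
    rw [List.eq_of_mem_replicate hπ]
    exact hσ)
  obtain ⟨y, hy, hy'⟩ := h (σ :: (σ * g) :: List.replicate N σ) (by simp) (by
    intro π hπ
    rw [List.mem_cons, List.mem_cons] at hπ
    rcases hπ with rfl | rfl | hπ
    · exact hσ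
    · exact hσg
    · rw [List.eq_of_mem_replicate hπ]
      exact hσ)
  rw [List.prod_replicate] at hx'
  rw [List.prod_cons, List.prod_cons, List.prod_replicate] at hy'
  have hx2 : σ ^ (N + 1) = x := by
    have : σ * σ ^ (N + 1) = σ * x := by rw [← pow_succ', hx']
    exact mul_left_cancel this
  have hy2 : σ * g * σ ^ N = y := mul_left_cancel hy'
  have : σ * g * σ⁻¹ * x = y := by
    rw [← hx2, ← hy2, pow_succ']
    group
  exact (haff x hx).mul_cancel (this ▸ haff y hy)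

/-- Let `n ≥ 5` be coprime to `6`. If the coset `σ D` of the lifted dihedral group `D` is closed
under products of `N` of its elements for some `N ≥ 2`, then `σ` is affine. In particular there is
no non-affine panmagic `N`-ary coset of `D`. -/
theorem result (n : ℕ) (hn : 5 ≤ n) (h6 : n.Coprime 6) (σ : Perm (ZMod n))
    (h : ∃ N, 2 ≤ N ∧ ClosedUnderProducts N (coset σ (liftedDihedral n))) : IsAffine σ := by
  obtain ⟨N, hN, h⟩ := h
  have hn1 : 1 < n := by omega
  have : NeZero n := ⟨by omega⟩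
  have h1 : (1 : Perm (ZMod n)) ∈ liftedDihedral n := by
    have := tr_mem hn1 (0 : ZMod n)
    have h0 : tr (0 : ZMod n) = 1 := by ext i; simp [tr]
    rwa [h0] at this
  have haff := conj_affine hN h1 (fun x hx => IsAffine.of_mem hx) h
  -- a half of `1`
  have h2n : n.Coprime 2 := Nat.Coprime.coprime_dvd_right (by norm_num) h6
  obtain ⟨c, hc⟩ : ∃ c : ZMod n, c + c = 1 := by
    refine ⟨((ZMod.unitOfCoprime 2 h2n.symm)⁻¹ : (ZMod n)ˣ), ?_⟩
    have h3 : ((ZMod.unitOfCoprime 2 h2n.symm : (ZMod n)ˣ) : ZMod n) = 2 := by simp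
    rw [← two_mul, ← h3, Units.mul_inv]
  obtain ⟨a, b, hA⟩ := haff _ (tr_mem hn1 c)
  obtain ⟨u, v, hB⟩ := haff _ (neg_mem hn1)
  have hA' : ∀ i, σ (i + c) = a * σ i + b := by
    intro i
    have := hA (σ i)
    simpa [Perm.mul_apply, tr] using this
  have hB' : ∀ i, σ (-i) = u * σ i + v := by
    intro i
    have := hB (σ i)
    simpa [Perm.mul_apply] using this
  set t : ZMod n := a * v + b - u * b - v with ht
  have hstep : ∀ j, σ (j + 1) = σ j + t := by
    intro j
    have e1 : σ (j + 1) = a * (u * σ (-j - c) + v) + b := by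
      rw [← hB', ← hA', ← hc]
      congr 1
      ring
    have e2 : σ j = u * (a * σ (-j - c) + b) + v := by
      rw [← hA', ← hB']
      congr 1
      ring
    rw [e1, e2, ht]
    ring
  have hnat : ∀ k : ℕ, σ (k : ZMod n) = t * k + σ 0 := by
    intro k
    induction k with
    | zero => simp
    | succ k ih =>
      push_cast
      rw [hstep, ih]
      ring
  have hall : ∀ i, σ i = t * i + σ 0 := by
    intro i
    have := hnat i.val
    rwa [ZMod.natCast_zmod_val] at this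
  obtain ⟨i, hi⟩ := σ.surjective (1 + σ 0)
  have hti : t * i = 1 := by
    have := hall i
    rw [hi] at this
    exact (add_right_cancel this).symm
  exact ⟨⟨t, i, hti, by rw [mul_comm, hti]⟩, σ 0, hall⟩

end Pool.Agent.Results.MP_72c4d1_al.NaryCosetsAffine
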